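import Pool.Agent.Work.MP_6b5a33_co.Main

/-! The polynomial `Q_120(m, 1)` is not length log-concave: its coefficients of `m, m^2, m^3`
satisfy `a_2^2 < a_1 a_3`. All definitions are in `Pool.Agent.Work.MP_6b5a33_co.Defs`. -/

namespace Pool.Agent.Results.MP_6b5a33_co.NotLogConcave

open Pool.Agent.Work.MP_6b5a33_co

theorem result : ((Qpoly 120).eval 1).coeff 2 ^ 2 <
    ((Qpoly 120).eval 1).coeff 1 * ((Qpoly 120).eval 1).coeff 3 := main

end Pool.Agent.Results.MP_6b5a33_co.NotLogConcave
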